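import Pool.Agent.Run7.h469.AB.P4ab349

/-!
# `rad (abc) > c ^ (1 + η)` for all the integral combinations of two integers, and for linear recurrences

Let `0 ≤ η < 2` and `B` be given. For all `(x, y)` in `[1, X]^2` with at most `L K^(4 + f(η) + ε) X^(f(η) + ε)` exceptions (a power less
than `X^2` if `K = X^((2 - f(η)) / (4 + f(η)) - δ)`), ALL the abc-triples `(u, v, u + v)` where `u` and `v` are linearly independent
integral combinations of `x` and `y` with coefficients up to `K` satisfy `rad (abc) > B c^(1 + η)`. For at most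
`L S^2 Y^(f(η) + ε)` pairs `(a, b)` (few of those in `[1, X]^2`, if `S` is bounded and `Y = X^(2 / f(η) - δ)`) there is a recurrence
`x_0 = a`, `x_1 = b`, `x_(n+2) = s x_(n+1) + t x_n` with `1 ≤ s, t ≤ S` and a member `x_(n+2) ≤ Y` such that the triple
`(t x_n, s x_(n+1), x_(n+2))` is coprime and violates this. For `η = 0`, `B = 1` the inequality is more than `T < 1`, and
`f(0) = 15/28`.
-/

set_option autoImplicit false

namespace Pool.Agent.Results.MP_4ab349_nt.CombinationsAndRecurrences

open Finset MeasureTheory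
open Run7.h469.Ab (euclidExceptions badIntervals combinationExceptions recurrenceExceptions)
open Run7.h469.AB.P4ab349 (Good f f_pos f_lt good_zero few)

/-- **Combinations and recurrences.** Let `0 ≤ η < 2`. For all `B` and `ε > 0` there is `L` such that (1) for all `X, K ≥ 1` for at
most `L K^(4 + f(η) + ε) X^(f(η) + ε)` of the `(x, y)` in `[1, X]^2` there are linearly independent integral combinations
`u, v > 0` of `x, y` with coefficients up to `K` such that `(u, v, u + v)` is an abc-triple with `rad (abc) ≤ B c^(1 + η)`, and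
(2) for all `S` and `Y ≥ 1` for at most `L S^2 Y^(f(η) + ε)` pairs `(a, b)` of positive integers some abc-triple
`(t x_n, s x_(n+1), x_(n+2))` with `x_(n+2) ≤ Y`, `1 ≤ s, t ≤ S`, of the recurrence `x_(n+2) = s x_(n+1) + t x_n` starting with
`a, b` has `rad (abc) ≤ B c^(1 + η)`. -/
theorem result : ∀ η B : ℝ, 0 ≤ η → η < 2 → ∀ ε : ℝ, 0 < ε → ∃ L : ℝ,
    (∀ X K : ℕ, 1 ≤ X → 1 ≤ K →
      ((combinationExceptions (Good η B) X K).card : ℝ) ≤ L * (K : ℝ) ^ (4 + f η + ε : ℝ) * (X : ℝ) ^ (f η + ε : ℝ)) ∧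
    ∀ S Y : ℕ, 1 ≤ Y →
      ((recurrenceExceptions (Good η B) S Y).card : ℝ) ≤ L * (S : ℝ) ^ 2 * (Y : ℝ) ^ (f η + ε : ℝ) := by
  intro η B hη hη2 ε hε
  obtain ⟨L₁, h₁⟩ := Run7.h469.Ab.combinations (Good η B) (few η B hη) ε hε
  obtain ⟨L₂, h₂⟩ := Run7.h469.Ab.recurrences (Good η B) (few η B hη) ε hε
  refine ⟨max L₁ L₂, fun X K hX hK => ?_, fun S Y hY => ?_⟩
  · refine (h₁ X K hX hK).trans ?_
    gcongr
    exact le_max_left _ _
  · refine (h₂ S Y hY).trans ?_
    gcongr
    exact le_max_right _ _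

end Pool.Agent.Results.MP_4ab349_nt.CombinationsAndRecurrences
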