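import Pool.Agent.Run7.h469.AB.P4ab349

/-!
# `rad (abc) > c ^ (1 + η)` along Euclid's algorithm, for all `η < 2`

Let `0 ≤ η < 2` and `B` be given. For all pairs `(a, b)` in `[1, X]^2` with at most `K X^2 H^(f(η)/2 - 1 + ε)` exceptions, ALL the
coprime pairs `(u, v)`, `max u v ≥ H`, of the subtractive Euclidean algorithm of `(a, b)` satisfy
`rad (u v (u + v)) > B (u + v)^(1 + η)`, so the exponent of the radical is larger than `3 - ε` along the whole algorithm; for
`η = 0`, `B = 1` this is more than the inequality `T < 1` of the problem, and `f(0) = 15/28`. For coprime `a, b` these are the pairs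
on the path from `(a, b)` to the root of the Calkin-Wilf tree. There are at most `6 X^2 / (u v)` pairs in `[1, X]^2` above a given
pair `(u, v)`, the exceptional pairs up to `H` number only `O(H^(f(η) + ε))`, `f(η) < 2`, by the starting files, and the chains
`(u, v), (u - v, v), …` with a small `v` are treated as a whole.
-/

set_option autoImplicit false

namespace Pool.Agent.Results.MP_4ab349_nt.EuclideanAlgorithm

open Finset MeasureTheory
open Run7.h469.Ab (euclidExceptions badIntervals combinationExceptions recurrenceExceptions)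
open Run7.h469.AB.P4ab349 (Good f f_pos f_lt good_zero few)

/-- **Euclid's algorithm.** For `0 ≤ η < 2`, all `B` and `ε > 0` there is `K` such that for all `X` and `H ≥ 1` for at most
`K X^2 H^(f(η)/2 - 1 + ε)` of the pairs `(a, b)` in `[1, X]^2` some coprime pair `(u, v)`, `max u v ≥ H`, of the subtractive
Euclidean algorithm of `(a, b)` has `rad (u v (u + v)) ≤ B (u + v)^(1 + η)`. -/
theorem result : ∀ η B : ℝ, 0 ≤ η → η < 2 → ∀ ε : ℝ, 0 < ε → ∃ K : ℝ, ∀ X H : ℕ, 1 ≤ H →
    ((euclidExceptions (Good η B) X H).card : ℝ) ≤ K * (X : ℝ) ^ 2 * (H : ℝ) ^ (f η / 2 - 1 + ε : ℝ) := by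
  intro η B hη hη2
  exact Run7.h469.Ab.euclid (f_lt η hη2) (Good η B) (few η B hη)

end Pool.Agent.Results.MP_4ab349_nt.EuclideanAlgorithm
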