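import Pool.Agent.Run7.h469.AB.P4ab349

/-!
# `rad (abc) > c ^ (1 + η)` in the Farey intervals around a real number, for all `η < 2`

Let `0 ≤ η < 2` and `B` be given. For all real `α > 0` outside a set of Hausdorff dimension at most `2 f(η) / (2 + f(η)) < 1`, and for
almost all `α` with respect to every measure of larger dimension (in particular for almost all real `α`), ALL but finitely many
Farey intervals `[q / s, p / r]`, `p s - q r = 1`, around `α` have the property that the four abc-triples `(p, q, p + q)`,
`(r, s, r + s)`, `(p, r, p + r)`, `(q, s, q + s)` satisfy `rad (abc) > B c ^ (1 + η)`. For `η = 0`, `B = 1` (which is more than the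
inequality `T < 1` of the problem) the dimension is at most `30/71`. These intervals are those on the path to `α` in the
Stern-Brocot tree.
-/

set_option autoImplicit false

namespace Pool.Agent.Results.MP_4ab349_nt.FareyIntervals

open Finset MeasureTheory
open Run7.h469.Ab (euclidExceptions badIntervals combinationExceptions recurrenceExceptions)
open Run7.h469.AB.P4ab349 (Good f f_pos f_lt good_zero few)

/-- **Farey intervals.** Let `0 ≤ η < 2`. For all `α > 0` outside a set of Hausdorff dimension at most `2 f(η) / (2 + f(η))`, and for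
almost all `α > 0` for all measures of a larger dimension `m`, there are only finitely many `q / s ≤ α ≤ p / r`, `p s - q r = 1`,
such that one of the abc-triples `(p, q, p + q)`, `(r, s, r + s)`, `(p, r, p + r)`, `(q, s, q + s)` has `rad (abc) ≤ B c ^ (1 + η)`. -/
theorem result : ∀ η B : ℝ, 0 ≤ η → η < 2 → 
    (∃ E : Set ℝ, dimH E ≤ ENNReal.ofReal (2 * f η / (2 + f η)) ∧ ∀ α : ℝ, 0 < α → α ∉ E → (badIntervals (Good η B) α).Finite) ∧
    ∀ (μ : Measure ℝ) (C₀ m : ℝ), 2 * f η / (2 + f η) < m →
      (∀ (x r : ℝ), 0 < r → μ (Metric.closedBall x r) ≤ ENNReal.ofReal (C₀ * r ^ m)) →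
      ∀ᵐ α ∂μ, 0 < α → (badIntervals (Good η B) α).Finite :=
  fun η B hη _ => Run7.h469.Ab.farey (f_pos η) (Good η B) (good_zero η B) (few η B hη)

end Pool.Agent.Results.MP_4ab349_nt.FareyIntervals
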