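import Pool.Agent.Run7.h430.TW.Abc
import Pool.Agent.Results.MP_4ab349_nt.SequenceMembers

/-!
# `T(a, b, c)` is negative for all the abc-triples with a divisor of `abc` near almost all orbits of Euler's function

Let `φ_k` be the `k`-th iterate of Euler's function, `φ_0(m) = m`. Let `f`, `g` be positive multiplicative functions of at most
polynomial growth such that `f p ≤ M p` for the large primes `p`, with different values at different large primes; for example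
the identity, Euler's function or the sum of the divisors. Let `F`, `G` be functions with steps bounded below by a positive
constant and growth at most `v^d`, `v^d'` (for example `α v^d`), and `A > 0`, `0 ≤ η < 7/9`, `κ ≥ 0`, `B` any real number. Let
`e(η) = 5 (10 η + 9) / 84` for `η ≤ 1/2` and `(9 η + 8) / 15` for `η > 1/2`, so that `e(0) = 15/28`.

(1) One orbit. If `A e(η) d + κ < 1`, there is `K(m)` tending to infinity such that for almost all `m`, for ALL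
`k, a ≤ K(m)`, `a ≥ 1`, and EVERY integer `n` with `|n - a F(v)| ≤ K(m) v^κ`, `v = f(φ_k(m))`: EVERY abc-triple for which `abc` is
divisible by `n` and `c ≤ n^A` satisfies `T(a, b, c) < - η √(log c) - B / √(log c)`, that is `rad(abc) > e^B c^(1 + η)`; in
particular `T(a, b, c) < 0`. For example (`A = 1`) for all the triples one of whose terms is `a φ_k(m) + h`,
`k, a, |h| ≤ K(m)`.

(2) Pairs of orbits. Let `A e(η) < 1`, `L ≥ 1`, `c = (1 - A e(η)) / (8 (L + 1)^3)`, and `d (1 - c) + κ < 1`, `d' (1 - c) + κ < 1`.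
There is `K(m)` tending to infinity such that for 100% of the pairs `(m, m')` (in every box `[1, N] × [1, N']` with large
sides), with `K = K(min (m, m'))`, for ALL `k, l, a, b ≤ K`, `a, b ≥ 1`, and ALL `n, n'` with `|n - a F(v)| ≤ K v^κ`,
`|n' - b G(w)| ≤ K w^κ`, `v = f(φ_k(m))`, `w = g(φ_l(m'))`, `n ≤ n'^L`, `n' ≤ n^L`: EVERY abc-triple with `n n' ∣ abc` and
`c ≤ (n n')^A` satisfies this inequality. This applies with `A = 1` to the triples `(n, n', n + n')` and `(n, n' - n, n')`,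
and for `A > 1` to triples for which only divisors of `abc` are prescribed by the orbits.

The iterates of Euler's function are not multiplicative, and the values `φ_k(m)`, `m ≤ N`, form a thin set and are taken with
very large multiplicities; so this does not follow from the number of the exceptional triples (`FewExceptions`,
`SequenceMembers`, starting files), which is used here. The tool is `Pool.Agent.N760.IT` (starting files), in the form of
`Run7/h430/TW` (multiples, enlarged windows; pairs of orbits).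
-/

set_option autoImplicit false

namespace Pool.Agent.Results.MP_4ab349_nt.TotientOrbits

open Finset Filter Topology

/-- the product of the primes dividing `n` -/
def rad (n : ℕ) : ℕ := ∏ p ∈ n.primeFactors, p

/-- `T(a, b, c) = log (c / rad(abc)) / √(log c)` -/
noncomputable def T (a b c : ℕ) : ℝ :=
  Real.log ((c : ℝ) / (rad (a * b * c) : ℝ)) / Real.sqrt (Real.log c)

/-- increasing from `15 / 28` for `η = 0` to `1` for `η = 7 / 9`: equal to `5 (10 η + 9) / 84` for `η ≤ 1 / 2` and to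
`(9 η + 8) / 15` for `η > 1 / 2` -/
noncomputable def e (η : ℝ) : ℝ := if η ≤ 1 / 2 then 5 * (10 * η + 9) / 84 else (9 * η + 8) / 15

/-- all abc-triples `(a, b, c)` with `n ∣ abc` and `c ≤ n ^ A` satisfy `T(a, b, c) < - η √(log c) - B / √(log c)` -/
def Good (A η B : ℝ) (n : ℕ) : Prop :=
  ∀ a b c : ℕ, 0 < a → 0 < b → Nat.Coprime a b → a + b = c → n ∣ a * b * c → (c : ℝ) ≤ (n : ℝ) ^ A →
    T a b c < - η * Real.sqrt (Real.log c) - B / Real.sqrt (Real.log c)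

/-- A positive multiplicative function of at most polynomial growth, at most `M p` at the large primes `p` and with different
values at different large primes. -/
structure Moderate (f : ℕ → ℕ) : Prop where
  mul : ∀ m n : ℕ, Nat.Coprime m n → f (m * n) = f m * f n
  pos : ∀ m : ℕ, 1 ≤ m → 1 ≤ f m
  growth : ∃ C D : ℕ, ∀ m : ℕ, 1 ≤ m → f m ≤ C * m ^ D
  prime : ∃ P M : ℕ, ∀ p : ℕ, P ≤ p → p.Prime → f p ≤ M * p ∧ ∀ q : ℕ, P ≤ q → q.Prime → f q = f p → q = p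

/-- The steps of `G` are at least a positive constant, and `G` grows at most like `v ^ d`, `d ≥ 1`. -/
structure Expanding (G : ℕ → ℝ) (d : ℝ) : Prop where
  one_le : 1 ≤ d
  step : ∃ a : ℝ, 0 < a ∧ ∀ v : ℕ, 1 ≤ v → a ≤ G (v + 1) - G v
  growth : ∃ C : ℝ, ∀ v : ℕ, 1 ≤ v → G v ≤ C * (v : ℝ) ^ d

open Classical in
/-- The proportion of the positive integers `m ≤ N` without the property `P` tends to `0`. -/
def AlmostAll (P : ℕ → Prop) : Prop :=
  Tendsto (fun N : ℕ => (((Icc 1 N).filter (fun m => ¬ P m)).card : ℝ) / N) atTop (𝓝 0)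

open Classical in
/-- `P m m'` holds for 100% of the pairs `(m, m')`, in all boxes `[1, N] × [1, N']` with large sides. -/
def AlmostAllPairs (P : ℕ → ℕ → Prop) : Prop :=
  ∀ δ : ℝ, 0 < δ → ∃ N₀ : ℕ, ∀ N N' : ℕ, N₀ ≤ N → N₀ ≤ N' →
    ((((Icc 1 N) ×ˢ (Icc 1 N')).filter (fun p => ¬ P p.1 p.2)).card : ℝ) ≤ δ * ((N : ℝ) * N')

/-- the value of `f` at the `k`-th iterate of Euler's function -/
def orb (f : ℕ → ℕ) (k m : ℕ) : ℕ := f (Nat.totient^[k] m)

theorem lm_of {f : ℕ → ℕ} (hf : Moderate f) : Pool.Agent.N733.TG.LM f := ⟨hf.mul, hf.pos, hf.growth, hf.prime⟩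

theorem of_lm {f : ℕ → ℕ} (hf : Pool.Agent.N733.TG.LM f) : Moderate f := ⟨hf.mul, hf.pos, hf.growth, hf.prime⟩

theorem ex_of {G : ℕ → ℝ} {d : ℝ} (h : Expanding G d) : Pool.Agent.N733.TG.Expanding G d := ⟨h.one_le, h.step, h.growth⟩

theorem aap_of {P : ℕ → ℕ → Prop} (h : Run7.h430.TW.Pairs.PairAA P) : AlmostAllPairs P := h

/-- the exceptional pairs `(a, b)` -/
def Exc (B lam : ℝ) (a b : ℕ) : Prop :=
  Nat.Coprime a b ∧ (rad (a * b * (a + b)) : ℝ) ≤ B * ((a + b : ℕ) : ℝ) ^ lam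

theorem few {B lam : ℝ} (hlam : 0 < lam) :
    Run7.h430.TW.Abc.Few (Exc B lam) (Pool.Agent.W221.ABC7.Fx lam) := by
  intro δ hδ
  obtain ⟨C, hC⟩ := Pool.Agent.W221.ABC7.count_FxB B lam δ hlam hδ
  have hF := Pool.Agent.W221.ABC7.Fx_pos lam hlam
  refine ⟨|C|, fun X hX => ?_⟩
  have hX0 : 0 ≤ X := by linarith
  have h1 : 1 ≤ ⌊X⌋₊ := Nat.le_floor (by exact_mod_cast hX)
  have h2 := hC ⌊X⌋₊ h1
  have hfin := Pool.Agent.W221.ABC7.excB_finite B lam ⌊X⌋₊
  obtain ⟨S, hS⟩ : ∃ S : Set (ℕ × ℕ), S = {p : ℕ × ℕ | 0 < p.1 ∧ 0 < p.2 ∧ Exc B lam p.1 p.2 ∧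
    ((p.1 + p.2 : ℕ) : ℝ) ≤ X} := ⟨_, rfl⟩
  rw [← hS]
  have hsub : (fun p : ℕ × ℕ => (p.1, p.2, p.1 + p.2)) '' S ⊆ Pool.Agent.W221.ABC7.ExcB B lam ⌊X⌋₊ := by
    rintro x ⟨p, hp, rfl⟩
    rw [hS] at hp
    obtain ⟨h3, h4, ⟨h5, h6⟩, h7⟩ := hp
    exact ⟨h3, h4, h5, rfl, Nat.le_floor h7, h6⟩
  have hinj : Function.Injective (fun p : ℕ × ℕ => (p.1, p.2, p.1 + p.2)) := by
    rintro ⟨a, b⟩ ⟨a', b'⟩ h
    simp only [Prod.mk.injEq] at h
    rw [h.1, h.2.1]
  have hSf : S.Finite := Set.Finite.of_finite_image (hfin.subset hsub) hinj.injOn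
  refine ⟨hSf, ?_⟩
  have h8 := Set.ncard_le_ncard hsub hfin
  rw [Set.ncard_image_of_injective _ hinj] at h8
  calc ((S.ncard : ℕ) : ℝ) ≤ (((Pool.Agent.W221.ABC7.ExcB B lam ⌊X⌋₊).ncard : ℕ) : ℝ) := by exact_mod_cast h8
    _ ≤ C * (⌊X⌋₊ : ℝ) ^ (Pool.Agent.W221.ABC7.Fx lam + δ) := h2
    _ ≤ |C| * (⌊X⌋₊ : ℝ) ^ (Pool.Agent.W221.ABC7.Fx lam + δ) :=
        mul_le_mul_of_nonneg_right (le_abs_self C) (by positivity)
    _ ≤ |C| * X ^ (Pool.Agent.W221.ABC7.Fx lam + δ) := by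
      refine mul_le_mul_of_nonneg_left ?_ (abs_nonneg C)
      exact Real.rpow_le_rpow (Nat.cast_nonneg _) (Nat.floor_le hX0) (by positivity)

theorem good_of {A η B : ℝ} {n : ℕ} (h : Run7.h430.TW.Abc.Free (Exc (Real.exp B) (1 + η)) A n) : Good A η B n := by
  intro a b c ha hb hab habc hd hh
  subst habc
  have hc : (1 : ℝ) < ((a + b : ℕ) : ℝ) := by exact_mod_cast (by omega : 1 < a + b)
  have hc0 : (0 : ℝ) < ((a + b : ℕ) : ℝ) := by linarith
  have hl : 0 < Real.log ((a + b : ℕ) : ℝ) := Real.log_pos hc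
  have hs : 0 < Real.sqrt (Real.log ((a + b : ℕ) : ℝ)) := Real.sqrt_pos.mpr hl
  have hr : (0 : ℝ) < (rad (a * b * (a + b)) : ℝ) := by exact_mod_cast SequenceMembers.rad_pos _
  have hbig : Real.exp B * ((a + b : ℕ) : ℝ) ^ (1 + η) < (rad (a * b * (a + b)) : ℝ) := by
    by_contra hcon
    exact h a b ha hb hd hh ⟨hab, not_lt.1 hcon⟩
  have h1 := Real.log_lt_log (by positivity) hbig
  rw [Real.log_mul (Real.exp_pos B).ne' (Real.rpow_pos_of_pos hc0 _).ne', Real.log_exp,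
    Real.log_rpow hc0] at h1
  unfold T
  rw [Real.log_div hc0.ne' hr.ne', div_lt_iff₀ hs]
  have hss : Real.sqrt (Real.log ((a + b : ℕ) : ℝ)) * Real.sqrt (Real.log ((a + b : ℕ) : ℝ)) =
      Real.log ((a + b : ℕ) : ℝ) := Real.mul_self_sqrt hl.le
  have h2 : (-η * Real.sqrt (Real.log ((a + b : ℕ) : ℝ)) - B / Real.sqrt (Real.log ((a + b : ℕ) : ℝ))) *
      Real.sqrt (Real.log ((a + b : ℕ) : ℝ)) = -η * Real.log ((a + b : ℕ) : ℝ) - B := by
    rw [sub_mul, div_mul_cancel₀ _ hs.ne', mul_assoc, hss]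
  rw [h2]
  linarith

/-- **`T(a, b, c)` along orbits and pairs of orbits of Euler's function.** `Good A η B n`: all abc-triples with `n ∣ abc` and
`c ≤ n ^ A` satisfy `T(a, b, c) < - η √(log c) - B / √(log c)`. -/
theorem result (A η B κ : ℝ) (hA : 0 < A) (hη : 0 ≤ η) (hη1 : η < 7 / 9) (hκ : 0 ≤ κ) :
    (∀ f : ℕ → ℕ, Moderate f → ∀ (F : ℕ → ℝ) (d : ℝ), Expanding F d → A * e η * d + κ < 1 →
      ∃ K : ℕ → ℕ, Tendsto K atTop atTop ∧
        AlmostAll (fun m => ∀ k ≤ K m, ∀ a : ℕ, 1 ≤ a → a ≤ K m → ∀ n : ℕ,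
          |(n : ℝ) - a * F (orb f k m)| ≤ K m * (orb f k m : ℝ) ^ κ → Good A η B n)) ∧
    (∀ f g : ℕ → ℕ, Moderate f → Moderate g → ∀ (F G : ℕ → ℝ) (d d' : ℝ), Expanding F d → Expanding G d' →
      ∀ L : ℕ, A * e η < 1 → d * (1 - (1 - A * e η) / (8 * ((L : ℝ) + 1) ^ 3)) + κ < 1 →
      d' * (1 - (1 - A * e η) / (8 * ((L : ℝ) + 1) ^ 3)) + κ < 1 →
      ∃ K : ℕ → ℕ, Tendsto K atTop atTop ∧ AlmostAllPairs (fun m m' => ∀ k ≤ K (min m m'), ∀ l ≤ K (min m m'),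
        ∀ a b : ℕ, 1 ≤ a → a ≤ K (min m m') → 1 ≤ b → b ≤ K (min m m') → ∀ n n' : ℕ,
          |(n : ℝ) - a * F (orb f k m)| ≤ K (min m m') * (orb f k m : ℝ) ^ κ →
          |(n' : ℝ) - b * G (orb g l m')| ≤ K (min m m') * (orb g l m' : ℝ) ^ κ →
          1 ≤ n → 1 ≤ n' → n ≤ n' ^ L → n' ≤ n ^ L → Good A η B (n * n'))) ∧
    (Moderate (fun m => m) ∧ Moderate Nat.totient ∧ Moderate (fun m => ∑ d ∈ m.divisors, d)) ∧
    ∀ a d : ℝ, 0 < a → 1 ≤ d → Expanding (fun v => a * (v : ℝ) ^ d) d := by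
  have hfew := few (B := Real.exp B) (lam := 1 + η) (by linarith)
  have hFe : Pool.Agent.W221.ABC7.Fx (1 + η) = e η := SequenceMembers.Fx_eq η hη hη1
  have he0 : 0 ≤ e η := by
    rw [← hFe]
    exact (Pool.Agent.W221.ABC7.Fx_pos _ (by linarith)).le
  rw [hFe] at hfew
  refine ⟨fun f hf F d hF h1 => ?_, fun f g hf hg F G d d' hF hG L hA7 h1 h2 => ?_,
    ⟨of_lm Pool.Agent.N760.IT.lm_id, of_lm Pool.Agent.N733.TG.lm_totient, of_lm Pool.Agent.N733.TG.lm_sigma⟩,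
    fun a d ha hd => ?_⟩
  · obtain ⟨K, hK, h2⟩ := Run7.h430.TW.Abc.one hfew he0 hA (lm_of hf) (ex_of hF) hκ (by linarith)
    exact ⟨K, hK, Pool.Agent.N826.IT.Orb.almostAll_mono h2 (fun m hm k hk a ha1 ha n hn => good_of (hm k hk a ha1 ha n hn))⟩
  · obtain ⟨K, hK, h3⟩ := Run7.h430.TW.Abc.pairs hfew he0 hA hA7 L (lm_of hf)
      (lm_of hg) (ex_of hF) (ex_of hG) hκ h1 h2
    refine ⟨K, hK, aap_of (fun δ hδ => ?_)⟩
    obtain ⟨N₀, hN₀⟩ := h3 δ hδ
    refine ⟨N₀, fun N N' hN hN' => le_trans ?_ (hN₀ N N' hN hN')⟩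
    refine Nat.cast_le.2 (Run7.h430.TW.Pairs.card_mono2 (fun p _ hp hq => hp (fun k hk l hl a b ha1 ha hb1 hb n n' hn hn'
      hn1 hn1' h6 h7 => ?_)))
    exact good_of (hq k hk l hl a b ha1 ha hb1 hb n n' hn hn' hn1 hn1' h6 h7)
  · obtain ⟨h1, h2, h3⟩ := Pool.Agent.N733.TG.expanding_pow ha hd
    exact ⟨h1, h2, h3⟩

end Pool.Agent.Results.MP_4ab349_nt.TotientOrbits
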